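import Mathlib

open Filter Topology

namespace Pool.Agent.Results.MP_a018d0_co.FullAnswer

/-- The set of vertices of the complete graph on `Fin n` that are covered by the colour set `S`
in the edge colouring `c`: the endpoints of edges whose colour lies in `S`. -/
def covered {n r : ℕ} (c : (⊤ : SimpleGraph (Fin n)).edgeSet → Fin r) (S : Finset (Fin r)) :
    Set (Fin n) :=
  {v | ∃ e : (⊤ : SimpleGraph (Fin n)).edgeSet, v ∈ (e : Sym2 (Fin n)) ∧ c e ∈ S}

/-- `g n r s` is the largest `m` such that in every `r`-edge colouring of `K_n` some set of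
`s` colours covers at least `m` vertices. -/
noncomputable def g (n r s : ℕ) : ℕ :=
  sSup {m : ℕ | ∀ c : (⊤ : SimpleGraph (Fin n)).edgeSet → Fin r,
    ∃ S : Finset (Fin r), S.card = s ∧ m ≤ (covered c S).ncard}

/-- Sanity check: for `1 ≤ s ≤ r` the supremum defining `g` is attained, so `g n r s` is indeed
the largest such `m`. -/
lemma g_isGreatest {n r s : ℕ} (hs : 1 ≤ s) (hsr : s ≤ r) :
    IsGreatest {m : ℕ | ∀ c : (⊤ : SimpleGraph (Fin n)).edgeSet → Fin r,
      ∃ S : Finset (Fin r), S.card = s ∧ m ≤ (covered c S).ncard} (g n r s) := by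
  have hbdd : ∀ m ∈ {m : ℕ | ∀ c : (⊤ : SimpleGraph (Fin n)).edgeSet → Fin r,
      ∃ S : Finset (Fin r), S.card = s ∧ m ≤ (covered c S).ncard}, m ≤ n := by
    intro m hm
    obtain ⟨S, -, hS⟩ := hm (fun _ => ⟨0, by omega⟩)
    refine hS.trans ?_
    have h1 : ∀ X : Set (Fin n), X.ncard ≤ n := fun X => by
      have h2 := Set.ncard_le_ncard (Set.subset_univ X) (Set.toFinite _)
      simpa [Set.ncard_univ] using h2
    exact h1 _
  refine ⟨Nat.sSup_mem ⟨0, fun c => ?_⟩ ⟨n, hbdd⟩, fun m hm => le_csSup ⟨n, hbdd⟩ hm⟩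
  obtain ⟨S, -, hS⟩ := Finset.exists_subset_card_eq
    (s := (Finset.univ : Finset (Fin r))) (n := s) (by simpa using hsr)
  exact ⟨S, hS, Nat.zero_le _⟩

lemma g_le {n r s B : ℕ} (c : (⊤ : SimpleGraph (Fin n)).edgeSet → Fin r)
    (h : ∀ S : Finset (Fin r), S.card = s → (covered c S).ncard ≤ B) : g n r s ≤ B := by
  apply csSup_le'
  intro m hm
  obtain ⟨S, hS, hm'⟩ := hm c
  exact hm'.trans (h S hS)

section construction

variable {K q : ℕ}

/-- vertex types -/
abbrev VT (K q : ℕ) : Type := {A : Finset (Fin K) // K < 2 * A.card} × (Fin K → Fin q × Fin q)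

/-- colour `x` is allowed at a vertex of type `t` -/
def allowed (t : VT K q) (x : Fin K × Fin q × Fin q) : Prop :=
  x.1 ∈ t.1.1 ∧ (x.2.1 = (t.2 x.1).1 ∨ x.2.2 = (t.2 x.1).2)

lemma exists_common (t t' : VT K q) : ∃ x, allowed t x ∧ allowed t' x := by
  obtain ⟨⟨A, hA⟩, f⟩ := t
  obtain ⟨⟨B, hB⟩, f'⟩ := t'
  have : (A ∩ B).Nonempty := by
    rw [← Finset.card_pos]
    have h1 := Finset.card_union_add_card_inter A B
    have h2 : (A ∪ B).card ≤ K := by
      simpa using Finset.card_le_univ (A ∪ B)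
    omega
  obtain ⟨a, ha⟩ := this
  rw [Finset.mem_inter] at ha
  exact ⟨(a, (f a).1, (f' a).2), ⟨ha.1, Or.inl rfl⟩, ⟨ha.2, Or.inr rfl⟩⟩

open Classical in
/-- the number of pairs `(i,j)` whose cross avoids a set of points of the `q × q` grid -/
lemma card_good (P : Finset (Fin q × Fin q)) (h : 4 * P.card ≤ q) :
    q * q ≤ 2 * (Finset.univ.filter fun ij : Fin q × Fin q =>
      ∀ x ∈ P, ¬ (x.1 = ij.1 ∨ x.2 = ij.2)).card := by
  have hbad : (Finset.univ.filter fun ij : Fin q × Fin q =>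
      ¬ ∀ x ∈ P, ¬ (x.1 = ij.1 ∨ x.2 = ij.2)).card ≤ P.card * (2 * q) := by
    have hsub : (Finset.univ.filter fun ij : Fin q × Fin q =>
      ¬ ∀ x ∈ P, ¬ (x.1 = ij.1 ∨ x.2 = ij.2)) ⊆
      P.biUnion fun x => (Finset.univ.image fun j : Fin q => (x.1, j)) ∪
        (Finset.univ.image fun i : Fin q => (i, x.2)) := by
      intro ij hij
      simp only [Finset.mem_filter, Finset.mem_univ, true_and, not_forall, not_not,
        exists_prop] at hij
      obtain ⟨x, hx, hx'⟩ := hij
      simp only [Finset.mem_biUnion, Finset.mem_union, Finset.mem_image, Finset.mem_univ,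
        true_and]
      refine ⟨x, hx, ?_⟩
      rcases hx' with h1 | h1
      · left; exact ⟨ij.2, by rw [h1]⟩
      · right; exact ⟨ij.1, by rw [h1]⟩
    refine (Finset.card_le_card hsub).trans ?_
    refine Finset.card_biUnion_le_card_mul _ _ _ ?_
    intro x _
    refine (Finset.card_union_le _ _).trans ?_
    have h1 : (Finset.univ.image fun j : Fin q => (x.1, j)).card ≤ q := by
      simpa using Finset.card_image_le (s := Finset.univ) (f := fun j : Fin q => (x.1, j))
    have h2 : (Finset.univ.image fun i : Fin q => (i, x.2)).card ≤ q := by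
      simpa using Finset.card_image_le (s := Finset.univ) (f := fun i : Fin q => (i, x.2))
    omega
  have htot := Finset.card_filter_add_card_filter_not (s := (Finset.univ : Finset (Fin q × Fin q)))
    (p := fun ij : Fin q × Fin q => ∀ x ∈ P, ¬ (x.1 = ij.1 ∨ x.2 = ij.2))
  have huniv : (Finset.univ : Finset (Fin q × Fin q)).card = q * q := by simp
  rw [huniv] at htot
  nlinarith [htot, hbad, h]


open Classical in
lemma card_types_le (P : Finset (Fin K × Fin q × Fin q)) (hK : 0 < K) (h : 8 * P.card ≤ K * q) :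
    Fintype.card (VT K q) ≤
      4 ^ K * (Finset.univ.filter fun t : VT K q => ∀ x ∈ P, ¬ allowed t x).card := by
  set Pa : Fin K → Finset (Fin q × Fin q) := fun a =>
    (P.filter fun x => x.1 = a).image Prod.snd with hPa
  have hPacard : ∀ a, (Pa a).card ≤ (P.filter fun x => x.1 = a).card := fun a =>
    Finset.card_image_le
  have hsum : ∑ a, (P.filter fun x => x.1 = a).card = P.card := by
    rw [Finset.card_eq_sum_card_fiberwise (f := Prod.fst) (t := Finset.univ) (by intro x _; simp)]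
  set A : Finset (Fin K) := Finset.univ.filter fun a => 4 * (Pa a).card ≤ q with hA
  set B : Finset (Fin K) := Finset.univ.filter fun a => ¬ 4 * (Pa a).card ≤ q with hB
  have hAB : A.card + B.card = K := by
    have := Finset.card_filter_add_card_filter_not (s := (Finset.univ : Finset (Fin K)))
      (p := fun a => 4 * (Pa a).card ≤ q)
    rw [hA, hB, this]
    simp
  have hBcard : B.card * (q + 1) ≤ 4 * P.card := by
    calc B.card * (q + 1) = ∑ a ∈ B, (q + 1) := by simp
      _ ≤ ∑ a ∈ B, 4 * (P.filter fun x => x.1 = a).card := by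
          apply Finset.sum_le_sum
          intro a ha
          rw [hB, Finset.mem_filter] at ha
          have := hPacard a
          omega
      _ ≤ ∑ a, 4 * (P.filter fun x => x.1 = a).card :=
          Finset.sum_le_sum_of_subset (Finset.subset_univ _)
      _ = 4 * P.card := by rw [← Finset.mul_sum, hsum]
  have hAmaj : K < 2 * A.card := by
    have h1 : 2 * B.card * (q + 1) < K * (q + 1) := by nlinarith
    have h2 : 2 * B.card < K := lt_of_mul_lt_mul_right h1 (Nat.zero_le _)
    omega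
  set G : Fin K → Finset (Fin q × Fin q) := fun a =>
    if 4 * (Pa a).card ≤ q then (Finset.univ.filter fun ij : Fin q × Fin q =>
      ∀ x ∈ Pa a, ¬ (x.1 = ij.1 ∨ x.2 = ij.2)) else Finset.univ with hG
  have hGcard : ∀ a, q * q ≤ 2 * (G a).card := by
    intro a
    simp only [hG]
    split_ifs with h1
    · exact card_good (Pa a) h1
    · simp only [Finset.card_univ, Fintype.card_prod, Fintype.card_fin]
      omega
  have hpi : (q * q) ^ K ≤ 2 ^ K * (Fintype.piFinset G).card := by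
    rw [Fintype.card_piFinset]
    calc (q * q) ^ K = ∏ _a : Fin K, (q * q) := by simp
      _ ≤ ∏ a : Fin K, (2 * (G a).card) := Finset.prod_le_prod' fun a _ => hGcard a
      _ = 2 ^ K * ∏ a, (G a).card := by rw [Finset.prod_mul_distrib]; simp
  have hinj : (Fintype.piFinset G).card ≤
      (Finset.univ.filter fun t : VT K q => ∀ x ∈ P, ¬ allowed t x).card := by
    apply Finset.card_le_card_of_injOn (fun f => ((⟨A, hAmaj⟩, f) : VT K q))
    · intro f hf
      simp only [Finset.coe_filter, Finset.mem_univ, true_and, Set.mem_ofPred_eq]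
      intro x hx hall
      obtain ⟨h1, h2⟩ := hall
      have hmem : 4 * (Pa x.1).card ≤ q := by
        have h3 : x.1 ∈ A := h1
        rw [hA, Finset.mem_filter] at h3
        exact h3.2
      have hf' := Fintype.mem_piFinset.mp (Finset.mem_coe.mp hf) x.1
      simp only [hG, if_pos hmem, Finset.mem_filter, Finset.mem_univ, true_and] at hf'
      refine hf' x.2 ?_ h2
      simp only [hPa, Finset.mem_image, Finset.mem_filter]
      exact ⟨x, ⟨hx, rfl⟩, rfl⟩
    · intro f _ f' _ hff'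
      simpa using hff'
  have htot : Fintype.card (VT K q) ≤ 2 ^ K * (q * q) ^ K := by
    rw [Fintype.card_prod]
    have h1 : Fintype.card {A : Finset (Fin K) // K < 2 * A.card} ≤ 2 ^ K := by
      refine (Fintype.card_subtype_le _).trans ?_
      simp
    have h2 : Fintype.card (Fin K → Fin q × Fin q) = (q * q) ^ K := by simp
    rw [h2]
    exact Nat.mul_le_mul_right _ h1
  calc Fintype.card (VT K q) ≤ 2 ^ K * (q * q) ^ K := htot
    _ ≤ 2 ^ K * (2 ^ K * (Fintype.piFinset G).card) := Nat.mul_le_mul_left _ hpi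
    _ ≤ 2 ^ K * (2 ^ K * (Finset.univ.filter fun t : VT K q => ∀ x ∈ P, ¬ allowed t x).card) :=
        Nat.mul_le_mul_left _ (Nat.mul_le_mul_left _ hinj)
    _ = 4 ^ K * (Finset.univ.filter fun t : VT K q => ∀ x ∈ P, ¬ allowed t x).card := by
        rw [← mul_assoc, ← mul_pow]
        norm_num

/-- distribute the vertices evenly among the types -/
lemma exists_equitable {T : Type} [Fintype T] [Nonempty T] (n : ℕ) :
    ∃ τ : Fin n → T, ∀ U : Finset T,
      U.card * (n / Fintype.card T) ≤ {v : Fin n | τ v ∈ U}.ncard := by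
  classical
  have hM : 0 < Fintype.card T := Fintype.card_pos
  let e := Fintype.equivFin T
  refine ⟨fun v => e.symm ⟨v.1 % Fintype.card T, Nat.mod_lt _ hM⟩, ?_⟩
  intro U
  have hlt : ∀ (t : T) (j : Fin (n / Fintype.card T)),
      (e t).1 + Fintype.card T * j.1 < n := by
    intro t j
    have h1 := (e t).2
    have h2 := j.2
    have h3 := Nat.mul_div_le n (Fintype.card T)
    have h4 : Fintype.card T * (j.1 + 1) ≤ Fintype.card T * (n / Fintype.card T) :=
      Nat.mul_le_mul_left _ h2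
    rw [Nat.mul_add] at h4
    omega
  have hcard : U.card * (n / Fintype.card T) =
      (U ×ˢ (Finset.univ : Finset (Fin (n / Fintype.card T)))).card := by
    simp
  rw [hcard, ← Set.ncard_coe_finset]
  apply Set.ncard_le_ncard_of_injOn (fun p => (⟨(e p.1).1 + Fintype.card T * p.2.1, hlt p.1 p.2⟩ : Fin n))
  · rintro ⟨t, j⟩ hp
    simp only [Finset.coe_product, Set.mem_prod, Finset.mem_coe] at hp
    simp only [Set.mem_ofPred_eq, Nat.add_mul_mod_self_left, Nat.mod_eq_of_lt (e t).2, Fin.eta,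
      Equiv.symm_apply_apply]
    exact hp.1
  · rintro ⟨t, j⟩ _ ⟨t', j'⟩ _ h
    simp only [Fin.mk.injEq] at h
    have h1 : (e t).1 = (e t').1 := by
      have := congrArg (· % Fintype.card T) h
      simpa [Nat.add_mul_mod_self_left, Nat.mod_eq_of_lt (e t).2, Nat.mod_eq_of_lt (e t').2] using this
    have h2 : j.1 = j'.1 := by
      rw [h1] at h
      exact Nat.eq_of_mul_eq_mul_left hM (Nat.add_left_cancel h)
    have h3 : t = t' := e.injective (Fin.ext h1)
    have h4 : j = j' := Fin.ext h2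
    rw [h3, h4]


/-- The colouring and the count of uncovered vertices. -/
lemma construction {r s : ℕ} (hK : 0 < K) (hq : 0 < q) (hr : K * (q * q) ≤ r)
    (hs : 8 * s ≤ K * q) : ∀ᶠ n : ℕ in atTop,
      (g n r s : ℝ) ≤ (1 - 1 / (2 * 4 ^ K)) * n := by
  classical
  have : Nonempty (Fin q) := ⟨⟨0, hq⟩⟩
  have : Nonempty (VT K q) := by
    refine ⟨⟨⟨Finset.univ, by simp; omega⟩, fun _ => (⟨0, hq⟩, ⟨0, hq⟩)⟩⟩
  set M := Fintype.card (VT K q) with hM
  have hMpos : 0 < M := Fintype.card_pos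
  filter_upwards [eventually_ge_atTop (2 * M)] with n hn
  obtain ⟨τ, hτ⟩ := exists_equitable (T := VT K q) n
  obtain ⟨ι⟩ : Nonempty ((Fin K × Fin q × Fin q) ↪ Fin r) := by
    apply Function.Embedding.nonempty_of_card_le
    simpa using hr
  have hex : ∀ e : (⊤ : SimpleGraph (Fin n)).edgeSet, ∃ x, ∀ v ∈ (e : Sym2 (Fin n)),
      allowed (τ v) x := by
    rintro ⟨e, he⟩
    induction e using Sym2.ind with
    | _ u v =>
      obtain ⟨x, hx1, hx2⟩ := exists_common (τ u) (τ v)
      refine ⟨x, fun w hw => ?_⟩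
      rcases Sym2.mem_iff.mp hw with rfl | rfl
      · exact hx1
      · exact hx2
  choose col hcol using hex
  have hpos : (0 : ℝ) < 4 ^ K := by positivity
  have hnn : (0 : ℝ) ≤ (1 - 1 / (2 * 4 ^ K)) * n := by
    apply mul_nonneg _ (Nat.cast_nonneg n)
    rw [sub_nonneg, div_le_one (by positivity)]
    have : (1 : ℝ) ≤ 4 ^ K := one_le_pow₀ (by norm_num)
    linarith
  have key : g n r s ≤ ⌊(1 - 1 / (2 * 4 ^ K)) * (n : ℝ)⌋₊ := by
    apply g_le (fun e => ι (col e))
    intro S hS
    apply Nat.le_floor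
    set P : Finset (Fin K × Fin q × Fin q) := Finset.univ.filter fun x => ι x ∈ S with hP
    have hPcard : P.card ≤ s := by
      rw [← hS]
      apply Finset.card_le_card_of_injOn ι
      · intro x hx
        have hx' := Finset.mem_coe.mp hx
        rw [hP, Finset.mem_filter] at hx'
        exact Finset.mem_coe.mpr hx'.2
      · exact ι.injective.injOn
    set U : Finset (VT K q) := Finset.univ.filter fun t => ∀ x ∈ P, ¬ allowed t x with hU
    have hMU : M ≤ 4 ^ K * U.card := card_types_le P hK (by omega)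
    have hUn := hτ U
    have hdisj : covered (fun e => ι (col e)) S ⊆ {v : Fin n | τ v ∈ U}ᶜ := by
      rintro v ⟨e, hve, hSe⟩ hvU
      have h1 : τ v ∈ U := hvU
      rw [hU, Finset.mem_filter] at h1
      exact h1.2 (col e) (by rw [hP, Finset.mem_filter]; exact ⟨Finset.mem_univ _, hSe⟩)
        (hcol e v hve)
    have hcov : (covered (fun e => ι (col e)) S).ncard + {v : Fin n | τ v ∈ U}.ncard ≤ n := by
      have h1 := Set.ncard_le_ncard hdisj (Set.toFinite _)
      have h2 := Set.ncard_add_ncard_compl {v : Fin n | τ v ∈ U}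
      rw [Nat.card_eq_fintype_card, Fintype.card_fin] at h2
      omega
    have hdm : n < M * (n / M) + M := by
      have h1 := Nat.div_add_mod n M
      have h2 := Nat.mod_lt n hMpos
      omega
    have hlow : M * (n / M) ≤ 4 ^ K * {v : Fin n | τ v ∈ U}.ncard := by
      calc M * (n / M) ≤ (4 ^ K * U.card) * (n / M) := Nat.mul_le_mul_right _ hMU
        _ = 4 ^ K * (U.card * (n / M)) := by ring
        _ ≤ _ := Nat.mul_le_mul_left _ hUn
    have hfin : n ≤ 2 * (4 ^ K * {v : Fin n | τ v ∈ U}.ncard) := by omega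
    have hfin' : (n : ℝ) ≤ 2 * (4 ^ K * ({v : Fin n | τ v ∈ U}.ncard : ℝ)) := by
      exact_mod_cast hfin
    have hcov' : ((covered (fun e => ι (col e)) S).ncard : ℝ) +
        ({v : Fin n | τ v ∈ U}.ncard : ℝ) ≤ n := by exact_mod_cast hcov
    have hlow' : (1 / (2 * 4 ^ K)) * (n : ℝ) ≤ ({v : Fin n | τ v ∈ U}.ncard : ℝ) := by
      rw [one_div, inv_mul_le_iff₀ (by positivity)]
      linarith
    nlinarith [hcov', hlow']
  calc (g n r s : ℝ) ≤ (⌊(1 - 1 / (2 * 4 ^ K)) * (n : ℝ)⌋₊ : ℝ) := by exact_mod_cast key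
    _ ≤ (1 - 1 / (2 * 4 ^ K)) * n := Nat.floor_le hnn

end construction

/-- Uniform bound: for `√r ≤ s ≤ r / 17`. -/
lemma uniform_bound {r s : ℕ} (hr : 9 ≤ r) (h1 : r ≤ s ^ 2) (h2 : 17 * s ≤ r) :
    ∀ᶠ n : ℕ in atTop,
      (g n r s : ℝ) ≤ (1 - Real.exp (-(771 * (s : ℝ) ^ 2 / r))) * n := by
  have hr0 : (0 : ℝ) < r := by exact_mod_cast (by omega : 0 < r)
  have h1' : (r : ℝ) ≤ (s : ℝ) ^ 2 := by exact_mod_cast h1
  have h2' : 17 * (s : ℝ) ≤ r := by exact_mod_cast h2
  set x : ℝ := (s : ℝ) ^ 2 / r with hx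
  have hx1 : 1 ≤ x := by rw [hx, le_div_iff₀ hr0]; linarith
  set K : ℕ := ⌈256 * x⌉₊ with hKdef
  have hKle : 256 * x ≤ K := Nat.le_ceil _
  have hKge : (K : ℝ) < 256 * x + 1 := Nat.ceil_lt_add_one (by positivity)
  have hK257 : (K : ℝ) ≤ 257 * x := by linarith
  have hKpos : 0 < K := by
    have : (0 : ℝ) < K := by linarith
    exact_mod_cast this
  have hKr : K ≤ r := by
    have h3 : (K : ℝ) ≤ r := by
      refine hK257.trans ?_
      rw [hx, ← mul_div_assoc, div_le_iff₀ hr0]
      nlinarith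
    exact_mod_cast h3
  set q : ℕ := Nat.sqrt (r / K) with hqdef
  have hq1 : q * q ≤ r / K := Nat.sqrt_le _
  have hq2 : r / K < (q + 1) * (q + 1) := Nat.lt_succ_sqrt _
  have hqpos : 0 < q := by
    rw [hqdef, Nat.sqrt_pos]
    exact Nat.div_pos hKr hKpos
  have hKq : K * (q * q) ≤ r := (Nat.mul_le_mul_left K hq1).trans (Nat.mul_div_le r K)
  have hr4 : r ≤ 4 * (K * (q * q)) := by
    have h3 : r < K * (r / K) + K := by
      have h4 := Nat.div_add_mod r K
      have h5 := Nat.mod_lt r hKpos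
      omega
    have h4 : K * (r / K + 1) ≤ K * ((q + 1) * (q + 1)) := Nat.mul_le_mul_left K hq2
    have h5 : (q + 1) * (q + 1) ≤ 4 * (q * q) := by nlinarith
    have h6 : K * ((q + 1) * (q + 1)) ≤ K * (4 * (q * q)) := Nat.mul_le_mul_left K h5
    rw [Nat.mul_add, Nat.mul_one] at h4
    calc r ≤ K * (4 * (q * q)) := by omega
      _ = 4 * (K * (q * q)) := by ring
  have hs8 : 8 * s ≤ K * q := by
    have h3 : (r : ℝ) ≤ 4 * (K * (q * q)) := by exact_mod_cast hr4
    have h4 : 256 * (s : ℝ) ^ 2 ≤ K * r := by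
      have h5 : 256 * (s : ℝ) ^ 2 = 256 * x * r := by rw [hx]; field_simp
      rw [h5]
      exact mul_le_mul_of_nonneg_right hKle hr0.le
    have hK0 : (0 : ℝ) ≤ K := Nat.cast_nonneg K
    have h5 : (8 * (s : ℝ)) ^ 2 ≤ ((K : ℝ) * q) ^ 2 := by
      have h6 : (K : ℝ) * r ≤ K * (4 * (K * (q * q))) := mul_le_mul_of_nonneg_left h3 hK0
      nlinarith
    have h6 : 8 * (s : ℝ) ≤ (K : ℝ) * q := by
      exact (pow_le_pow_iff_left₀ (by positivity) (by positivity) two_ne_zero).mp h5
    exact_mod_cast h6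
  filter_upwards [construction hKpos hqpos hKq hs8] with n hn
  refine hn.trans ?_
  apply mul_le_mul_of_nonneg_right _ (Nat.cast_nonneg n)
  have hexp : Real.exp (-(771 * (s : ℝ) ^ 2 / r)) ≤ 1 / (2 * 4 ^ K) := by
    have h3 : Real.exp (-(771 * (s : ℝ) ^ 2 / r)) ≤ Real.exp (-(3 * K)) := by
      apply Real.exp_le_exp.mpr
      have h4 : 771 * (s : ℝ) ^ 2 / r = 771 * x := by rw [hx]; ring
      rw [h4]
      linarith
    refine h3.trans ?_
    rw [Real.exp_neg, one_div]
    apply inv_anti₀ (by positivity)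
    have h4 : (2 : ℝ) ≤ Real.exp 1 := by
      have := Real.add_one_le_exp (1 : ℝ)
      linarith
    have h5 : Real.exp (3 * (K : ℝ)) = (Real.exp 1 ^ 3) ^ K := by
      rw [← pow_mul, ← Real.exp_nat_mul]
      push_cast
      ring_nf
    have h6 : (8 : ℝ) ≤ Real.exp 1 ^ 3 := by
      calc (8 : ℝ) = 2 ^ 3 := by norm_num
        _ ≤ Real.exp 1 ^ 3 := by gcongr
    have h7 : (2 : ℝ) ≤ 2 ^ K := by
      calc (2 : ℝ) = 2 ^ 1 := by norm_num
        _ ≤ 2 ^ K := pow_le_pow_right₀ (by norm_num) hKpos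
    have h8 : (8 : ℝ) ^ K = 2 ^ K * 4 ^ K := by rw [← mul_pow]; norm_num
    calc (2 : ℝ) * 4 ^ K ≤ 2 ^ K * 4 ^ K := by gcongr
      _ = 8 ^ K := h8.symm
      _ ≤ (Real.exp 1 ^ 3) ^ K := by gcongr
      _ = Real.exp (3 * (K : ℝ)) := h5.symm
  linarith

/-- **Q1 holds.** -/
theorem result : ∃ C : ℝ, 0 < C ∧ ∀ s : ℕ → ℕ,
    Tendsto (fun r : ℕ => (s r : ℝ) / √(r : ℝ)) atTop atTop →
    Tendsto (fun r : ℕ => (s r : ℝ) / √((r : ℝ) * Real.logb 2 r)) atTop (𝓝 0) →
    ∀ᶠ r : ℕ in atTop, ∀ᶠ n : ℕ in atTop,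
      (g n r (s r) : ℝ) ≤ (1 - Real.exp (-(C * (s r : ℝ) ^ 2 / r))) * n := by
  refine ⟨771, by norm_num, fun s hs1 hs2 => ?_⟩
  have hlog : ∀ᶠ r : ℕ in atTop, Real.logb 2 (r : ℝ) ≤ (r : ℝ) / 289 := by
    have h1 : Tendsto (fun x : ℝ => Real.log x / x) atTop (𝓝 0) := by
      have := Real.isLittleO_log_id_atTop.tendsto_div_nhds_zero
      simpa using this
    have h2 : Tendsto (fun r : ℕ => Real.log (r : ℝ) / (r : ℝ)) atTop (𝓝 0) :=
      h1.comp tendsto_natCast_atTop_atTop
    have hlog2 : 0 < Real.log 2 := Real.log_pos (by norm_num)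
    filter_upwards [h2.eventually_lt_const (show (0 : ℝ) < Real.log 2 / 289 by positivity),
      eventually_gt_atTop 0] with r hr hr0
    have hr0' : (0 : ℝ) < r := by exact_mod_cast hr0
    rw [div_lt_iff₀ hr0'] at hr
    rw [Real.logb, div_le_iff₀ hlog2]
    linarith
  filter_upwards [hs1.eventually_ge_atTop 1, hs2.eventually_lt_const (show (0 : ℝ) < 1 by norm_num),
    hlog, eventually_ge_atTop 9] with r h1 h2 h3 h4
  have hr0 : (0 : ℝ) < r := by exact_mod_cast (by omega : 0 < r)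
  have hlogpos : 0 < Real.logb 2 (r : ℝ) := by
    apply Real.logb_pos (by norm_num)
    exact_mod_cast (by omega : 1 < r)
  apply uniform_bound h4
  · have h5 : √(r : ℝ) ≤ s r := by
      rw [le_div_iff₀ (by positivity)] at h1
      linarith
    have h6 : (r : ℝ) ≤ (s r : ℝ) ^ 2 := by
      calc (r : ℝ) = √(r : ℝ) ^ 2 := (Real.sq_sqrt hr0.le).symm
        _ ≤ (s r : ℝ) ^ 2 := by gcongr
    exact_mod_cast h6
  · have h5 : (s r : ℝ) ≤ √((r : ℝ) * Real.logb 2 r) := by
      rw [div_lt_one (by positivity)] at h2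
      exact h2.le
    have h6 : √((r : ℝ) * Real.logb 2 r) ≤ (r : ℝ) / 17 := by
      apply Real.sqrt_le_iff.mpr
      refine ⟨by positivity, ?_⟩
      calc (r : ℝ) * Real.logb 2 r ≤ r * (r / 289) := by gcongr
        _ = (r / 17) ^ 2 := by ring
    have h7 : 17 * (s r : ℝ) ≤ r := by linarith
    exact_mod_cast h7

end Pool.Agent.Results.MP_a018d0_co.FullAnswer
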